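import Pool.Agent.Helper95.LN.Stmts

/-! # LN row PHB: first and second derivatives of the smeared Coulomb potential -/

set_option autoImplicit false

namespace Pool.Agent.Helper29.LN

open MeasureTheory Filter Topology Pool.Agent.Helper95.PW Pool.Agent.Helper95.LN

theorem bt_cont : Continuous bt := by
  unfold bt
  exact (Real.smoothTransition.continuous.comp (by fun_prop)).mul
    (Real.smoothTransition.continuous.comp (by fun_prop))

theorem bt_zero_left {t : ℝ} (ht : t ≤ 1) : bt t = 0 := by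
  unfold bt
  rw [Real.smoothTransition.zero_of_nonpos (by linarith), zero_mul]

theorem bt_zero_right {t : ℝ} (ht : 2 ≤ t) : bt t = 0 := by
  unfold bt
  rw [Real.smoothTransition.zero_of_nonpos (x := 4 * (2 - t)) (by linarith), mul_zero]

theorem bt_pos {t : ℝ} (h1 : 1 < t) (h2 : t < 2) : 0 < bt t := by
  unfold bt
  exact mul_pos (Real.smoothTransition.pos_of_pos (by linarith))
    (Real.smoothTransition.pos_of_pos (by linarith))

theorem bt2_int (s t : ℝ) : IntervalIntegrable (fun u => bt u ^ 2) volume s t :=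
  (bt_cont.pow 2).intervalIntegrable s t

theorem cb_pos : 0 < cb := by
  unfold cb
  exact intervalIntegral.intervalIntegral_pos_of_pos_on (bt2_int 1 2)
    (fun x hx => pow_pos (bt_pos hx.1 hx.2) 2) (by norm_num)

theorem G1_hd (t : ℝ) : HasDerivAt G1 (-(bt t ^ 2 / cb)) t := by
  have h := intervalIntegral.integral_hasDerivAt_left (bt2_int t 2)
    ((bt_cont.pow 2).stronglyMeasurableAtFilter _ _) (bt_cont.pow 2).continuousAt
  have h2 := h.const_mul (1 / cb)
  have e : 1 / cb * -(bt t ^ 2) = -(bt t ^ 2 / cb) := by ring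
  rw [← e]
  exact h2

theorem G1_one {t : ℝ} (ht : t ≤ 1) : G1 t = 1 := by
  unfold G1
  have h1 : ∫ u in t..2, bt u ^ 2 = (∫ u in t..1, bt u ^ 2) + ∫ u in (1:ℝ)..2, bt u ^ 2 :=
    (intervalIntegral.integral_add_adjacent_intervals (bt2_int t 1) (bt2_int 1 2)).symm
  have h2 : ∫ u in t..1, bt u ^ 2 = 0 := by
    rw [intervalIntegral.integral_congr (g := fun _ => (0 : ℝ))]
    · simp
    · intro u hu
      rw [Set.uIcc_of_le ht] at hu
      simp only
      rw [bt_zero_left hu.2]
      norm_num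
  rw [h1, h2, zero_add]
  have h3 : (∫ u in (1:ℝ)..2, bt u ^ 2) = cb := rfl
  rw [h3, one_div, inv_mul_cancel₀ cb_pos.ne']

theorem G1_zero {t : ℝ} (ht : 2 ≤ t) : G1 t = 0 := by
  unfold G1
  have h2 : ∫ u in t..2, bt u ^ 2 = 0 := by
    rw [intervalIntegral.integral_congr (g := fun _ => (0 : ℝ))]
    · simp
    · intro u hu
      rw [Set.uIcc_of_ge ht] at hu
      simp only
      rw [bt_zero_right hu.1]
      norm_num
  rw [h2, mul_zero]

theorem G1_anti : Antitone G1 := by
  apply antitone_of_deriv_nonpos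
  · exact fun t => (G1_hd t).differentiableAt
  · intro t
    rw [(G1_hd t).deriv]
    have := cb_pos
    have h : 0 ≤ bt t ^ 2 / cb := by positivity
    linarith

theorem G1_nn (t : ℝ) : 0 ≤ G1 t := by
  rcases le_total t 2 with h | h
  · rw [← G1_zero (le_refl (2:ℝ))]
    exact G1_anti h
  · rw [G1_zero h]

theorem G1_le (t : ℝ) : G1 t ≤ 1 := by
  rcases le_total t 1 with h | h
  · rw [G1_one h]
  · rw [← G1_one (le_refl (1:ℝ))]
    exact G1_anti h

theorem G1_cont : Continuous G1 :=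
  continuous_iff_continuousAt.2 fun t => (G1_hd t).continuousAt

theorem G0_hd (t : ℝ) : HasDerivAt G0 (G1 t) t :=
  intervalIntegral.integral_hasDerivAt_right (G1_cont.intervalIntegrable 0 t)
    (G1_cont.stronglyMeasurableAtFilter _ _) G1_cont.continuousAt

theorem G0_two {t : ℝ} (ht : 2 ≤ t) : G0 t = G0 2 := by
  unfold G0
  rw [← intervalIntegral.integral_add_adjacent_intervals (G1_cont.intervalIntegrable 0 2)
    (G1_cont.intervalIntegrable 2 t)]
  have h2 : ∫ u in (2:ℝ)..t, G1 u = 0 := by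
    rw [intervalIntegral.integral_congr (g := fun _ => (0 : ℝ))]
    · simp
    · intro u hu
      rw [Set.uIcc_of_le ht] at hu
      simp only
      rw [G1_zero hu.1]
  rw [h2, add_zero]

theorem nr_nn (y : R3) : 0 ≤ nr y := Real.sqrt_nonneg _

theorem nr_sq (y : R3) : nr y ^ 2 = y 0 ^ 2 + y 1 ^ 2 + y 2 ^ 2 := by
  unfold nr
  rw [Real.sq_sqrt (by positivity)]

theorem nr_cont : Continuous nr := by
  unfold nr
  fun_prop

/-- the coordinate line through `y` -/
theorem nr_line (y : R3) (i : Fin 3) (t : ℝ) :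
    nr (y + t • (Pi.single i 1 : R3)) = Real.sqrt (nr y ^ 2 + 2 * t * y i + t ^ 2) := by
  rw [nr_sq]
  unfold nr
  congr 1
  fin_cases i <;> simp <;> ring

theorem nr_line_hd (y : R3) (hy : 0 < nr y) (i : Fin 3) :
    HasDerivAt (fun t : ℝ => nr (y + t • (Pi.single i 1 : R3))) (y i / nr y) 0 := by
  have h0 : HasDerivAt (fun t : ℝ => nr y ^ 2 + 2 * t * y i + t ^ 2) (2 * y i) 0 := by
    have h1 : HasDerivAt (fun t : ℝ => 2 * t * y i) (2 * 1 * y i) 0 :=
      ((hasDerivAt_id (0:ℝ)).const_mul 2).mul_const (y i)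
    have h2 : HasDerivAt (fun t : ℝ => t ^ 2) (2 * (0:ℝ) ^ (2 - 1)) 0 := by
      simpa using hasDerivAt_pow 2 (0 : ℝ)
    have h3 := (h1.const_add (nr y ^ 2)).add h2
    have e : 2 * 1 * y i + 2 * (0:ℝ) ^ (2 - 1) = 2 * y i := by norm_num
    rw [← e]
    exact h3
  have h1 := h0.sqrt (by simp; exact hy.ne')
  simp only [nr_line]
  convert h1 using 1
  have : Real.sqrt (nr y ^ 2 + 2 * 0 * y i + 0 ^ 2) = nr y := by
    rw [show nr y ^ 2 + 2 * 0 * y i + 0 ^ 2 = nr y ^ 2 by ring, Real.sqrt_sq hy.le]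
  rw [this]
  field_simp

theorem pd_of {f : R3 → ℝ} {y : R3} (hf : DifferentiableAt ℝ f y) {i : Fin 3} {v : ℝ}
    (h : HasDerivAt (fun t : ℝ => f (y + t • (Pi.single i 1 : R3))) v 0) : pd i f y = v := by
  unfold pd
  rw [← hf.lineDeriv_eq_fderiv]
  exact h.deriv

theorem ph_eq {a : ℝ} (_ha : 0 < a) {y : R3} (hy : 0 < nr y) : ph a y = G0 (a / nr y) / a := by
  unfold ph
  split_ifs with h
  · have h2 : 2 ≤ a / nr y := by
      rw [le_div_iff₀ hy]
      linarith
    rw [G0_two h2]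
  · rfl

theorem line_pos {y : R3} (hy : 0 < nr y) (i : Fin 3) :
    ∀ᶠ t : ℝ in 𝓝 0, 0 < nr (y + t • (Pi.single i 1 : R3)) := by
  have hc : Continuous (fun t : ℝ => nr (y + t • (Pi.single i 1 : R3))) :=
    nr_cont.comp (by fun_prop)
  have := hc.continuousAt (x := (0:ℝ))
  apply this.eventually_const_lt
  simpa using hy

theorem div_line_hd {a : ℝ} {y : R3} (hy : 0 < nr y) (i : Fin 3) :
    HasDerivAt (fun t : ℝ => a / nr (y + t • (Pi.single i 1 : R3)))
      (-(a * y i / nr y ^ 3)) 0 := by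
  have h := nr_line_hd y hy i
  have h2 := (h.inv (by simpa using hy.ne')).const_mul a
  have e : (fun t : ℝ => a / nr (y + t • (Pi.single i 1 : R3))) =
      fun t : ℝ => a * (fun t : ℝ => nr (y + t • (Pi.single i 1 : R3)))⁻¹ t := by
    funext t
    simp [div_eq_mul_inv]
  rw [e]
  have e2 : a * (-(y i / nr y) / nr (y + (0:ℝ) • (Pi.single i 1 : R3)) ^ 2) =
      -(a * y i / nr y ^ 3) := by
    simp only [zero_smul, add_zero]
    field_simp
  rw [← e2]
  exact h2

/-- the gradient away from the origin -/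
theorem pd_ph (hPHA : ST_PHA) {a : ℝ} (ha : 0 < a) {y : R3} (hy : 0 < nr y) (i : Fin 3) :
    pd i (ph a) y = -(G1 (a / nr y) * y i / nr y ^ 3) := by
  have hs := (hPHA a ha).1
  apply pd_of (hs.differentiable (by simp) y)
  have h1 : HasDerivAt (fun t : ℝ => G0 (a / nr (y + t • (Pi.single i 1 : R3))) / a)
      (G1 (a / nr (y + (0:ℝ) • (Pi.single i 1 : R3))) * (-(a * y i / nr y ^ 3)) / a) 0 :=
    ((G0_hd _).comp (0:ℝ) (div_line_hd hy i)).div_const a
  have h2 : (fun t : ℝ => ph a (y + t • (Pi.single i 1 : R3))) =ᶠ[𝓝 0]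
      fun t : ℝ => G0 (a / nr (y + t • (Pi.single i 1 : R3))) / a := by
    filter_upwards [line_pos hy i] with t ht
    exact ph_eq ha ht
  have h3 := h1.congr_of_eventuallyEq h2
  have e2 : G1 (a / nr (y + (0:ℝ) • (Pi.single i 1 : R3))) * (-(a * y i / nr y ^ 3)) / a =
      -(G1 (a / nr y) * y i / nr y ^ 3) := by
    simp only [zero_smul, add_zero]
    field_simp
  rw [← e2]
  exact h3

/-- the potential is constant near the origin -/
theorem pd_ph_in {a : ℝ} {y : R3} (hy : nr y < a / 2) (i : Fin 3) :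
    pd i (ph a) y = 0 := by
  unfold pd
  have h : ph a =ᶠ[𝓝 y] fun _ => G0 2 / a := by
    have ho : IsOpen {y : R3 | nr y < a / 2} := isOpen_lt nr_cont continuous_const
    filter_upwards [ho.mem_nhds hy] with z hz
    unfold ph
    rw [if_pos hz]
  rw [h.fderiv_eq]
  simp

theorem pdpd_in {a : ℝ} {y : R3} (hy : nr y < a / 2) (i : Fin 3) :
    pd i (pd i (ph a)) y = 0 := by
  have h : pd i (ph a) =ᶠ[𝓝 y] fun _ => (0:ℝ) := by
    have ho : IsOpen {y : R3 | nr y < a / 2} := isOpen_lt nr_cont continuous_const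
    filter_upwards [ho.mem_nhds hy] with z hz
    exact pd_ph_in hz i
  have e : pd i (pd i (ph a)) y = fderiv ℝ (pd i (ph a)) y (Pi.single i 1) := rfl
  rw [e, h.fderiv_eq]
  simp

theorem pd_smooth {f : R3 → ℝ} (hf : ContDiff ℝ (⊤ : ℕ∞) f) (i : Fin 3) :
    ContDiff ℝ (⊤ : ℕ∞) (pd i f) := by
  unfold pd
  exact (hf.fderiv_right (m := (⊤ : ℕ∞)) (by simp)).clm_apply contDiff_const

theorem pdpd_ph (hPHA : ST_PHA) {a : ℝ} (ha : 0 < a) {y : R3} (hy : 0 < nr y) (i : Fin 3) :
    pd i (pd i (ph a)) y = -(a * bt (a / nr y) ^ 2 / cb * y i ^ 2 / nr y ^ 6) -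
      G1 (a / nr y) * (1 / nr y ^ 3 - 3 * y i ^ 2 / nr y ^ 5) := by
  have hs := (hPHA a ha).1
  apply pd_of ((pd_smooth hs i).differentiable (by simp) y)
  have hG : HasDerivAt (fun t : ℝ => G1 (a / nr (y + t • (Pi.single i 1 : R3))))
      (-(bt (a / nr (y + (0:ℝ) • (Pi.single i 1 : R3))) ^ 2 / cb) * (-(a * y i / nr y ^ 3))) 0 :=
    (G1_hd _).comp (0:ℝ) (div_line_hd hy i)
  have hY : HasDerivAt (fun t : ℝ => (y + t • (Pi.single i 1 : R3)) i) 1 0 := by
    have h1 : (fun t : ℝ => (y + t • (Pi.single i 1 : R3)) i) = fun t => y i + t := by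
      funext t
      simp
    rw [h1]
    exact (hasDerivAt_id (0:ℝ)).const_add (y i)
  have hN := (nr_line_hd y hy i).pow 3
  have hq := ((hG.mul hY).div hN (by simpa using hy.ne')).neg
  have h2 : (fun t : ℝ => pd i (ph a) (y + t • (Pi.single i 1 : R3))) =ᶠ[𝓝 0]
      fun t : ℝ => -(G1 (a / nr (y + t • (Pi.single i 1 : R3))) *
        (y + t • (Pi.single i 1 : R3)) i / nr (y + t • (Pi.single i 1 : R3)) ^ 3) := by
    filter_upwards [line_pos hy i] with t ht
    exact pd_ph hPHA ha ht i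
  refine (HasDerivAt.congr_of_eventuallyEq hq h2).congr_deriv ?_
  have := cb_pos
  simp only [zero_smul, add_zero, Pi.mul_apply, Pi.pow_apply]
  push_cast
  field_simp
  ring

theorem PHB (hPHA : ST_PHA) : ST_PHB := by
  intro a ha
  refine ⟨?_, ?_, ?_, ?_⟩
  · intro y
    rcases (nr_nn y).lt_or_eq with hy | hy
    · unfold lap et
      simp only [pdpd_ph hPHA ha hy]
      rw [Fin.sum_univ_three]
      have h := nr_sq y
      have hcb := cb_pos
      have e2 : y 2 ^ 2 = nr y ^ 2 - y 0 ^ 2 - y 1 ^ 2 := by linarith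
      simp only [e2]
      field_simp
      ring
    · have h0 : nr y < a / 2 := by
        rw [← hy]
        positivity
      unfold lap et
      simp only [pdpd_in h0]
      rw [← hy]
      simp
  · intro i y
    by_cases h : nr y < a / 2
    · rw [pd_ph_in h, abs_zero]
      positivity
    · push Not at h
      have hy : 0 < nr y := lt_of_lt_of_le (by positivity) h
      rw [pd_ph hPHA ha hy]
      have hyi : |y i| ≤ nr y := by
        apply abs_le_of_sq_le_sq _ hy.le
        rw [nr_sq]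
        fin_cases i
        · change y 0 ^ 2 ≤ _
          nlinarith [sq_nonneg (y 1), sq_nonneg (y 2)]
        · change y 1 ^ 2 ≤ _
          nlinarith [sq_nonneg (y 0), sq_nonneg (y 2)]
        · change y 2 ^ 2 ≤ _
          nlinarith [sq_nonneg (y 0), sq_nonneg (y 1)]
      rw [abs_neg, abs_div, abs_mul, abs_of_nonneg (G1_nn _), abs_of_nonneg (by positivity : (0:ℝ) ≤ nr y ^ 3)]
      have h1 : G1 (a / nr y) * |y i| ≤ 1 * nr y :=
        mul_le_mul (G1_le _) hyi (abs_nonneg _) zero_le_one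
      calc G1 (a / nr y) * |y i| / nr y ^ 3 ≤ 1 * nr y / nr y ^ 3 :=
            div_le_div_of_nonneg_right h1 (by positivity)
        _ = 1 / nr y ^ 2 := by field_simp
        _ ≤ 1 / (a / 2) ^ 2 := by
            apply one_div_le_one_div_of_le (by positivity)
            exact pow_le_pow_left₀ (by positivity) h 2
        _ = 4 / a ^ 2 := by field_simp; ring
  · intro i y hy0
    have hy : 0 < nr y := lt_of_le_of_ne (nr_nn y) (Ne.symm hy0)
    rw [pd_ph hPHA ha hy]
    have hyi : |y i| ≤ nr y := by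
      apply abs_le_of_sq_le_sq _ hy.le
      rw [nr_sq]
      fin_cases i
      · change y 0 ^ 2 ≤ _
        nlinarith [sq_nonneg (y 1), sq_nonneg (y 2)]
      · change y 1 ^ 2 ≤ _
        nlinarith [sq_nonneg (y 0), sq_nonneg (y 2)]
      · change y 2 ^ 2 ≤ _
        nlinarith [sq_nonneg (y 0), sq_nonneg (y 1)]
    rw [abs_neg, abs_div, abs_mul, abs_of_nonneg (G1_nn _), abs_of_nonneg (by positivity : (0:ℝ) ≤ nr y ^ 3)]
    have h1 : G1 (a / nr y) * |y i| ≤ 1 * nr y :=
      mul_le_mul (G1_le _) hyi (abs_nonneg _) zero_le_one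
    calc G1 (a / nr y) * |y i| / nr y ^ 3 ≤ 1 * nr y / nr y ^ 3 :=
          div_le_div_of_nonneg_right h1 (by positivity)
      _ = 1 / nr y ^ 2 := by field_simp
  · intro i y hay
    have hy : 0 < nr y := lt_of_lt_of_le ha hay
    rw [pd_ph hPHA ha hy, G1_one ((div_le_one hy).2 hay), one_mul]

end Pool.Agent.Helper29.LN
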